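import Pool.Agent.Helper25.GG.Defs2

/-!
GG-8: pieces with a decomposition of bounded depth are well quasi ordered by rooted embedding
(Higman's lemma and finitely many labels).
-/

namespace Pool.Agent.Helper25.GG

variable {H : Type} [Group H]

omit [Group H] in
theorem wqo_emb_refl (p : ℕ) (A : Piece H) : Emb p A A :=
  ⟨id, fun _ _ _ _ h => h, fun _ h => h, fun _ _ => rfl, fun _ _ _ _ => Iff.rfl,
    fun _ _ _ _ _ => Iff.rfl, fun _ _ _ _ _ _ => Iff.rfl⟩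

omit [Group H] in
theorem wqo_emb_trans (p : ℕ) {A B C : Piece H} (h1 : Emb p A B) (h2 : Emb p B C) :
    Emb p A C := by
  obtain ⟨ψ, i1, m1, g1, r1, a1, e1⟩ := h1
  obtain ⟨χ, i2, m2, g2, r2, a2, e2⟩ := h2
  refine ⟨χ ∘ ψ, i2.comp i1 m1, fun e he => m2 _ (m1 e he), fun e he => ?_,
    fun a ha a' ha' => ?_, fun e he b a ha => ?_, fun e he e' he' b b' => ?_⟩
  · exact (g2 _ (m1 e he)).trans (g1 e he)
  · exact (r1 a ha a' ha').trans (r2 a ha a' ha')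
  · exact (a1 e he b a ha).trans (a2 _ (m1 e he) b a ha)
  · exact (e1 e he e' he' b b').trans (e2 _ (m1 e he) _ (m1 e' he') b b')

omit [Group H] in
theorem wqo_preorder (H : Type) (p : ℕ) : IsPreorder (Piece H) (Emb p) where
  refl := wqo_emb_refl p
  trans := fun _ _ _ => wqo_emb_trans p

/-- The children: a small set of edges with all ends at roots, and a piece of smaller depth. -/
def wqoSet (c : ℕ) (k : ℕ) (q : ℕ) : Set (Piece H) :=
  {A | ∃ C K : Set ℕ, A.2.2 = C ∪ K ∧ C.Finite ∧ C.ncard ≤ c ∧ Disjoint C K ∧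
    A.1.vs C ⊆ A.2.1 '' Set.Iio q ∧ DD c A.1 k q A.2.1 K}

omit [Group H] in
theorem wqo_data {c k q : ℕ} {A : Piece H} (hA : A ∈ wqoSet c k q) :
    ∃ (K : Set ℕ) (m : ℕ) (e : ℕ → ℕ) (t : Bool → ℕ → ℕ), m ≤ c ∧ Set.InjOn e (Set.Iio m) ∧
      A.2.2 = e '' Set.Iio m ∪ K ∧ Disjoint (e '' Set.Iio m) K ∧
      (∀ j < m, ∀ b, t b j < q ∧ A.1.en b (e j) = A.2.1 (t b j)) ∧ DD c A.1 k q A.2.1 K := by
  obtain ⟨C, K, h1, h2, h3, h4, h5, h6⟩ := hA
  obtain ⟨e, he⟩ : ∃ e : ℕ → ℕ, Set.BijOn e (Set.Iio C.ncard) C := by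
    apply (Set.finite_Iio C.ncard).exists_bijOn_of_encard_eq
    rw [← (Set.finite_Iio C.ncard).cast_ncard_eq, ← h2.cast_ncard_eq]
    congr 1
    rw [← Finset.coe_Iio, Set.ncard_coe_finset, Nat.card_Iio]
  have ht : ∀ b : Bool, ∀ j : ℕ, ∃ t, j < C.ncard → t < q ∧ A.1.en b (e j) = A.2.1 t := by
    intro b j
    by_cases hj : j < C.ncard
    · obtain ⟨t, ht, htt⟩ := h5 (A.1.en_mem_vs (he.mapsTo hj) b)
      exact ⟨t, fun _ => ⟨ht, htt.symm⟩⟩
    · exact ⟨0, fun h => absurd h hj⟩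
  choose t ht using ht
  refine ⟨K, C.ncard, e, t, h3, he.injOn, ?_, ?_, fun j hj b => ht b j hj, h6⟩
  · rw [he.image_eq]; exact h1
  · rw [he.image_eq]; exact h4

omit [Group H] in
/-- Gluing a labelled small part and an embedding of the rest. -/
theorem wqo_child {q : ℕ} {A B : Piece H} {K K' : Set ℕ} {m : ℕ} {e e' : ℕ → ℕ}
    {t : Bool → ℕ → ℕ} (hi : Set.InjOn e (Set.Iio m)) (hi' : Set.InjOn e' (Set.Iio m))
    (hA : A.2.2 = e '' Set.Iio m ∪ K) (hB : B.2.2 = e' '' Set.Iio m ∪ K')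
    (hd : Disjoint (e '' Set.Iio m) K) (hd' : Disjoint (e' '' Set.Iio m) K')
    (ht : ∀ j < m, ∀ b, t b j < q ∧ A.1.en b (e j) = A.2.1 (t b j))
    (ht' : ∀ j < m, ∀ b, B.1.en b (e' j) = B.2.1 (t b j))
    (hγ : ∀ j < m, B.1.γ (e' j) = A.1.γ (e j))
    (h : Emb q ((A.1, A.2.1, K) : Piece H) (B.1, B.2.1, K')) : Emb q A B := by
  classical
  obtain ⟨ψ, i1, m1, g1, r1, a1, e1⟩ := h
  simp only at i1 m1 g1 r1 a1 e1
  set χ : ℕ → ℕ := fun x => if x ∈ e '' Set.Iio m then e' (Function.invFunOn e (Set.Iio m) x)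
    else ψ x with hχ
  have hχ1 : ∀ j < m, χ (e j) = e' j := by
    intro j hj
    have hmem : e j ∈ e '' Set.Iio m := ⟨j, hj, rfl⟩
    simp only [hχ, if_pos hmem]
    congr 1
    exact hi.leftInvOn_invFunOn hj
  have hχ2 : ∀ x ∈ K, χ x = ψ x := by
    intro x hx
    have hmem : x ∉ e '' Set.Iio m := fun h' => Set.disjoint_left.mp hd h' hx
    simp only [hχ, if_neg hmem]
  have hcase : ∀ x ∈ A.2.2, (∃ j < m, x = e j) ∨ x ∈ K := by
    intro x hx
    rw [hA] at hx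
    rcases hx with ⟨j, hj, rfl⟩ | hx
    · exact Or.inl ⟨j, hj, rfl⟩
    · exact Or.inr hx
  refine ⟨χ, ?_, ?_, ?_, r1, ?_, ?_⟩
  · intro x hx y hy hxy
    rcases hcase x hx with ⟨j, hj, rfl⟩ | hxK <;> rcases hcase y hy with ⟨j', hj', rfl⟩ | hyK
    · rw [hχ1 j hj, hχ1 j' hj'] at hxy
      rw [hi' hj hj' hxy]
    · rw [hχ1 j hj, hχ2 y hyK] at hxy
      exact absurd (hxy ▸ m1 y hyK : e' j ∈ K')
        (fun h' => Set.disjoint_left.mp hd' ⟨j, hj, rfl⟩ h')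
    · rw [hχ1 j' hj', hχ2 x hxK] at hxy
      exact absurd (hxy ▸ m1 x hxK : e' j' ∈ K')
        (fun h' => Set.disjoint_left.mp hd' ⟨j', hj', rfl⟩ h')
    · rw [hχ2 x hxK, hχ2 y hyK] at hxy
      exact i1 hxK hyK hxy
  · intro x hx
    rw [hB]
    rcases hcase x hx with ⟨j, hj, rfl⟩ | hxK
    · rw [hχ1 j hj]; exact Or.inl ⟨j, hj, rfl⟩
    · rw [hχ2 x hxK]; exact Or.inr (m1 x hxK)
  · intro x hx
    rcases hcase x hx with ⟨j, hj, rfl⟩ | hxK
    · rw [hχ1 j hj]; exact hγ j hj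
    · rw [hχ2 x hxK]; exact g1 x hxK
  · intro x hx b a ha
    rcases hcase x hx with ⟨j, hj, rfl⟩ | hxK
    · rw [hχ1 j hj, (ht j hj b).2, ht' j hj b]
      exact r1 _ (ht j hj b).1 a ha
    · rw [hχ2 x hxK]; exact a1 x hxK b a ha
  · intro x hx y hy b b'
    rcases hcase x hx with ⟨j, hj, rfl⟩ | hxK <;> rcases hcase y hy with ⟨j', hj', rfl⟩ | hyK
    · rw [hχ1 j hj, hχ1 j' hj', (ht j hj b).2, ht' j hj b, (ht j' hj' b').2, ht' j' hj' b']
      exact r1 _ (ht j hj b).1 _ (ht j' hj' b').1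
    · rw [hχ1 j hj, hχ2 y hyK, (ht j hj b).2, ht' j hj b, eq_comm, a1 y hyK b' _ (ht j hj b).1,
        eq_comm]
    · rw [hχ1 j' hj', hχ2 x hxK, (ht j' hj' b').2, ht' j' hj' b']
      exact a1 x hxK b _ (ht j' hj' b').1
    · rw [hχ2 x hxK, hχ2 y hyK]
      exact e1 x hxK y hyK b b'

/-- Pigeonhole in the form used twice. -/
theorem wqo_pigeon {T : Type} [Finite T] (lab : ℕ → T) : ∃ m n, m < n ∧ lab m = lab n := by
  obtain ⟨x, y, hne, h⟩ := Finite.exists_ne_map_eq_of_infinite lab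
  rcases lt_or_gt_of_ne hne with hl | hl
  · exact ⟨x, y, hl, h⟩
  · exact ⟨y, x, hl, h.symm⟩

theorem wqo_children [Finite H] {c k q : ℕ}
    (ih : {A : Piece H | DD c A.1 k q A.2.1 A.2.2}.PartiallyWellOrderedOn (Emb q)) :
    (wqoSet (H := H) c k q).PartiallyWellOrderedOn (Emb q) := by
  have := wqo_preorder H q
  rw [Set.partiallyWellOrderedOn_iff_exists_lt]
  intro f hf
  choose K m e t hm hi hA hd ht hDD using fun n => wqo_data (hf n)
  obtain ⟨g, hg⟩ := ih.exists_monotone_subseq (f := fun n => ((f n).1, (f n).2.1, K n)) hDD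
  obtain ⟨n1, n2, hlt, hlab⟩ := wqo_pigeon
    (fun n => ((⟨m (g n), Nat.lt_succ_of_le (hm (g n))⟩ : Fin (c + 1)),
      (fun (j : Fin c) (b : Bool) => (⟨min (t (g n) b j) q, by omega⟩ : Fin (q + 1))),
      (fun (j : Fin c) => (f (g n)).1.γ (e (g n) j))))
  simp only [Prod.mk.injEq, Fin.mk.injEq] at hlab
  obtain ⟨h1, h2, h3⟩ := hlab
  have h2' : ∀ j < m (g n1), ∀ b, t (g n2) b j = t (g n1) b j := by
    intro j hj b
    have hjc : j < c := lt_of_lt_of_le hj (hm _)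
    have := congrFun (congrFun h2 ⟨j, hjc⟩) b
    simp only [Fin.mk.injEq] at this
    have e1 := (ht (g n1) j hj b).1
    have e2 := (ht (g n2) j (h1 ▸ hj) b).1
    omega
  have h3' : ∀ j < m (g n1), (f (g n2)).1.γ (e (g n2) j) = (f (g n1)).1.γ (e (g n1) j) := by
    intro j hj
    have hjc : j < c := lt_of_lt_of_le hj (hm _)
    exact (congrFun h3 ⟨j, hjc⟩).symm
  refine ⟨g n1, g n2, g.lt_iff_lt.mpr hlt, ?_⟩
  refine wqo_child (m := m (g n1)) (e := e (g n1)) (e' := e (g n2)) (t := t (g n1))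
    (K := K (g n1)) (K' := K (g n2)) (hi _) ?_ (hA _) ?_ (hd _) ?_ (ht _) ?_ h3'
    (hg n1 n2 hlt.le)
  · rw [h1]; exact hi _
  · rw [h1]; exact hA _
  · rw [h1]; exact hd _
  · intro j hj b
    rw [← h2' j hj b]
    exact (ht (g n2) j (h1 ▸ hj) b).2

omit [Group H] in
/-- Gluing the embeddings of a list of pieces. -/
theorem wqo_glue {p q : ℕ} (hpq : p ≤ q) {G G' : GGraph ℕ H} {ρ ρ' : ℕ → ℕ}
    (hr : ∀ a < p, ∀ a' < p, ρ a = ρ a' ↔ ρ' a = ρ' a') {L L' : List (Piece H)}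
    (h : List.SublistForall₂ (Emb q) L L')
    (hL : ∀ y ∈ L, y.1 = G ∧ ∀ a < p, y.2.1 a = ρ a)
    (hL' : ∀ y ∈ L', y.1 = G' ∧ ∀ a < p, y.2.1 a = ρ' a)
    (hp : L.Pairwise fun x y => Disjoint x.2.2 y.2.2 ∧ G.vs x.2.2 ∩ G.vs y.2.2 ⊆ ρ '' Set.Iio p)
    (hp' : L'.Pairwise fun x y =>
      Disjoint x.2.2 y.2.2 ∧ G'.vs x.2.2 ∩ G'.vs y.2.2 ⊆ ρ' '' Set.Iio p) :
    Emb p ((G, ρ, {e | ∃ x ∈ L, e ∈ x.2.2}) : Piece H) (G', ρ', {e | ∃ x ∈ L', e ∈ x.2.2}) := by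
  classical
  induction h with
  | nil =>
    exact ⟨id, by intro x hx; simp at hx, by intro x hx; simp at hx, by intro x hx; simp at hx,
      hr, by intro x hx; simp at hx, by intro x hx; simp at hx⟩
  | @cons a₁ a₂ l₁ l₂ hab hl ih =>
    obtain ⟨ψ, i1, m1, g1, -, a1, e1⟩ := ih (fun y hy => hL y (List.mem_cons_of_mem _ hy))
      (fun y hy => hL' y (List.mem_cons_of_mem _ hy)) (List.pairwise_cons.mp hp).2
      (List.pairwise_cons.mp hp').2
    obtain ⟨χ, i0, m0, g0, -, a0, e0⟩ := hab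
    have hc := (List.pairwise_cons.mp hp).1
    have hc' := (List.pairwise_cons.mp hp').1
    obtain ⟨hG, hρ⟩ := hL a₁ List.mem_cons_self
    obtain ⟨hG', hρ'⟩ := hL' a₂ List.mem_cons_self
    rw [hG, hG'] at g0 a0 e0
    simp only [Set.mem_ofPred_eq] at i1 m1 g1 a1 e1
    set ω : ℕ → ℕ := fun x => if x ∈ a₁.2.2 then χ x else ψ x with hω
    have hω1 : ∀ x ∈ a₁.2.2, ω x = χ x := fun x hx => by simp only [hω, if_pos hx]
    have hω2 : ∀ x, (∃ y ∈ l₁, x ∈ y.2.2) → ω x = ψ x := by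
      rintro x ⟨y, hy, hxy⟩
      have hmem : x ∉ a₁.2.2 := fun h' => Set.disjoint_left.mp (hc y hy).1 h' hxy
      simp only [hω, if_neg hmem]
    have hcase : ∀ x, (∃ y ∈ a₁ :: l₁, x ∈ y.2.2) → x ∈ a₁.2.2 ∨ ∃ y ∈ l₁, x ∈ y.2.2 := by
      rintro x ⟨y, hy, hxy⟩
      rcases List.mem_cons.mp hy with rfl | hy
      · exact Or.inl hxy
      · exact Or.inr ⟨y, hy, hxy⟩
    have hcross : ∀ x ∈ a₁.2.2, ∀ y, (∃ z ∈ l₁, y ∈ z.2.2) → ∀ b b',
        (G.en b x = G.en b' y ↔ G'.en b (χ x) = G'.en b' (ψ y)) := by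
      rintro x hx y hy b b'
      obtain ⟨z, hz, hyz⟩ := hy
      constructor
      · intro hE
        obtain ⟨a, ha, hav⟩ := (hc z hz).2
          ⟨G.en_mem_vs hx b, hE ▸ G.en_mem_vs hyz b'⟩
        have k1 : G'.en b (χ x) = ρ' a := by
          rw [← hρ' a ha]
          rw [← hρ a ha] at hav
          exact (a0 x hx b a (lt_of_lt_of_le ha hpq)).mp hav.symm
        have k2 : G'.en b' (ψ y) = ρ' a :=
          (a1 y ⟨z, hz, hyz⟩ b' a ha).mp (hE ▸ hav.symm)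
        rw [k1, k2]
      · intro hE
        obtain ⟨z', hz', hyz'⟩ := m1 y ⟨z, hz, hyz⟩
        obtain ⟨a, ha, hav⟩ := (hc' z' hz').2
          ⟨G'.en_mem_vs (m0 x hx) b, hE ▸ G'.en_mem_vs hyz' b'⟩
        have k1 : G.en b x = ρ a := by
          rw [← hρ a ha]
          refine (a0 x hx b a (lt_of_lt_of_le ha hpq)).mpr ?_
          rw [hρ' a ha]; exact hav.symm
        have k2 : G.en b' y = ρ a :=
          (a1 y ⟨z, hz, hyz⟩ b' a ha).mpr (hE ▸ hav.symm)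
        rw [k1, k2]
    refine ⟨ω, ?_, ?_, ?_, hr, ?_, ?_⟩
    · intro x hx y hy hxy
      rcases hcase x hx with hx | hx <;> rcases hcase y hy with hy | hy
      · rw [hω1 x hx, hω1 y hy] at hxy
        exact i0 hx hy hxy
      · rw [hω1 x hx, hω2 y hy] at hxy
        obtain ⟨z, hz, hyz⟩ := m1 y hy
        exact absurd (hxy ▸ hyz : χ x ∈ z.2.2)
          (fun h' => Set.disjoint_left.mp (hc' z hz).1 (m0 x hx) h')
      · rw [hω1 y hy, hω2 x hx] at hxy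
        obtain ⟨z, hz, hyz⟩ := m1 x hx
        exact absurd (hxy ▸ hyz : χ y ∈ z.2.2)
          (fun h' => Set.disjoint_left.mp (hc' z hz).1 (m0 y hy) h')
      · rw [hω2 x hx, hω2 y hy] at hxy
        exact i1 hx hy hxy
    · intro x hx
      rcases hcase x hx with hx | hx
      · rw [hω1 x hx]; exact ⟨a₂, List.mem_cons_self, m0 x hx⟩
      · rw [hω2 x hx]
        obtain ⟨z, hz, hyz⟩ := m1 x hx
        exact ⟨z, List.mem_cons_of_mem _ hz, hyz⟩
    · intro x hx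
      rcases hcase x hx with hx | hx
      · rw [hω1 x hx]; exact g0 x hx
      · rw [hω2 x hx]; exact g1 x hx
    · intro x hx b a ha
      rcases hcase x hx with hx | hx
      · rw [hω1 x hx]
        have := a0 x hx b a (lt_of_lt_of_le ha hpq)
        rw [hρ a ha, hρ' a ha] at this
        exact this
      · rw [hω2 x hx]; exact a1 x hx b a ha
    · intro x hx y hy b b'
      rcases hcase x hx with hx | hx <;> rcases hcase y hy with hy | hy
      · rw [hω1 x hx, hω1 y hy]; exact e0 x hx y hy b b'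
      · rw [hω1 x hx, hω2 y hy]; exact hcross x hx y hy b b'
      · rw [hω1 y hy, hω2 x hx, eq_comm]
        refine (hcross y hy x hx b' b).trans ?_
        exact eq_comm
      · rw [hω2 x hx, hω2 y hy]; exact e1 x hx y hy b b'
  | @cons_right a l₁ l₂ hl ih =>
    obtain ⟨ψ, i1, m1, g1, r1, a1, e1⟩ := ih hL (fun y hy => hL' y (List.mem_cons_of_mem _ hy))
      hp (List.pairwise_cons.mp hp').2
    refine ⟨ψ, i1, ?_, g1, r1, a1, e1⟩
    intro x hx
    obtain ⟨z, hz, hyz⟩ := m1 x hx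
    exact ⟨z, List.mem_cons_of_mem _ hz, hyz⟩

theorem dd_pwo [Finite H] (c k : ℕ) : ∀ p : ℕ,
    {A : Piece H | DD c A.1 k p A.2.1 A.2.2}.PartiallyWellOrderedOn (Emb p) := by
  induction k with
  | zero =>
    intro p
    rw [Set.partiallyWellOrderedOn_iff_exists_lt]
    intro f hf
    obtain ⟨n1, n2, hlt, hlab⟩ := wqo_pigeon
      (fun n => fun (a b : Fin p) => (f n).2.1 a = (f n).2.1 b)
    refine ⟨n1, n2, hlt, id, ?_, ?_, ?_, ?_, ?_, ?_⟩
    · intro x hx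
      have h0 : (f n1).2.2 = ∅ := hf n1
      rw [h0] at hx; exact absurd hx (Set.notMem_empty x)
    · intro x hx
      have h0 : (f n1).2.2 = ∅ := hf n1
      rw [h0] at hx; exact absurd hx (Set.notMem_empty x)
    · intro x hx
      have h0 : (f n1).2.2 = ∅ := hf n1
      rw [h0] at hx; exact absurd hx (Set.notMem_empty x)
    · intro a ha b hb
      exact iff_of_eq (congrFun (congrFun hlab ⟨a, ha⟩) ⟨b, hb⟩)
    · intro x hx
      have h0 : (f n1).2.2 = ∅ := hf n1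
      rw [h0] at hx; exact absurd hx (Set.notMem_empty x)
    · intro x hx
      have h0 : (f n1).2.2 = ∅ := hf n1
      rw [h0] at hx; exact absurd hx (Set.notMem_empty x)
  | succ k ih =>
    intro p
    have := wqo_preorder H (p + 2 * c)
    have hch := wqo_children (ih (p + 2 * c))
    have hhig := Set.PartiallyWellOrderedOn.partiallyWellOrderedOn_sublistForall₂ _ hch
    rw [Set.partiallyWellOrderedOn_iff_exists_lt]
    intro f hf
    have hf' : ∀ n, ∃ l : List (Set ℕ × Set ℕ × (ℕ → ℕ)),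
      (f n).2.2 = {e | ∃ x ∈ l, e ∈ x.1 ∪ x.2.1} ∧
      (∀ x ∈ l, x.1.Finite ∧ x.1.ncard ≤ c ∧ Disjoint x.1 x.2.1 ∧
        (∀ a < p, x.2.2 a = (f n).2.1 a) ∧
        (f n).1.vs x.1 ⊆ x.2.2 '' Set.Iio (p + 2 * c) ∧
        DD c (f n).1 k (p + 2 * c) x.2.2 x.2.1) ∧
      l.Pairwise fun x y => Disjoint (x.1 ∪ x.2.1) (y.1 ∪ y.2.1) ∧
        (f n).1.vs (x.1 ∪ x.2.1) ∩ (f n).1.vs (y.1 ∪ y.2.1) ⊆ (f n).2.1 '' Set.Iio p :=
      fun n => hf n
    choose l hK hl hpw using hf'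
    set L : ℕ → List (Piece H) := fun n =>
      (l n).map (fun x => ((f n).1, x.2.2, x.1 ∪ x.2.1)) with hLdef
    have hLmem : ∀ n, L n ∈ {l : List (Piece H) | ∀ x, x ∈ l → x ∈ wqoSet c k (p + 2 * c)} := by
      intro n y hy
      simp only [hLdef, List.mem_map] at hy
      obtain ⟨x, hx, rfl⟩ := hy
      obtain ⟨k1, k2, k3, -, k5, k6⟩ := hl n x hx
      exact ⟨x.1, x.2.1, rfl, k1, k2, k3, k5, k6⟩
    have hpre : IsPreorder (List (Piece H)) (List.SublistForall₂ (Emb (p + 2 * c))) :=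
      { refl := fun a => List.SublistForall₂.is_refl.refl a
        trans := fun a b d => List.SublistForall₂.is_trans.trans a b d }
    obtain ⟨g, hg⟩ := hhig.exists_monotone_subseq hLmem
    obtain ⟨n1, n2, hlt, hlab⟩ := wqo_pigeon
      (fun n => fun (a b : Fin p) => (f (g n)).2.1 a = (f (g n)).2.1 b)
    have hsets : ∀ n, (f n).2.2 = {e | ∃ x ∈ L n, e ∈ x.2.2} := by
      intro n
      rw [hK n]
      ext e
      simp only [hLdef, List.mem_map, Set.mem_ofPred_eq]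
      constructor
      · rintro ⟨x, hx, hxe⟩
        exact ⟨_, ⟨x, hx, rfl⟩, hxe⟩
      · rintro ⟨_, ⟨x, hx, rfl⟩, hxe⟩
        exact ⟨x, hx, hxe⟩
    have hroot : ∀ n, ∀ y ∈ L n, y.1 = (f n).1 ∧ ∀ a < p, y.2.1 a = (f n).2.1 a := by
      intro n y hy
      simp only [hLdef, List.mem_map] at hy
      obtain ⟨x, hx, rfl⟩ := hy
      exact ⟨rfl, (hl n x hx).2.2.2.1⟩
    have hpair : ∀ n, (L n).Pairwise fun x y => Disjoint x.2.2 y.2.2 ∧
        (f n).1.vs x.2.2 ∩ (f n).1.vs y.2.2 ⊆ (f n).2.1 '' Set.Iio p := by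
      intro n
      simp only [hLdef]
      rw [List.pairwise_map]
      exact hpw n
    refine ⟨g n1, g n2, g.lt_iff_lt.mpr hlt, ?_⟩
    have hfin := wqo_glue (p := p) (q := p + 2 * c) (by omega)
      (G := (f (g n1)).1) (G' := (f (g n2)).1) (ρ := (f (g n1)).2.1) (ρ' := (f (g n2)).2.1)
      (fun a ha b hb => iff_of_eq (congrFun (congrFun hlab ⟨a, ha⟩) ⟨b, hb⟩))
      (hg n1 n2 hlt.le) (hroot _) (hroot _) (hpair _) (hpair _)
    rw [← hsets, ← hsets] at hfin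
    exact hfin

end Pool.Agent.Helper25.GG
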